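import Pool.Agent.E8helper30.MC.Stm

/-! Project MC: S_SAT, the union bound over `m`-subsets. -/

set_option autoImplicit false

namespace Pool.Agent.E8helper25.MC

open scoped Classical Pointwise
open Pool.Agent.E8helper30.MC

theorem t_SAT (h1 : S_DJ) (h2 : S_CNT) : S_SAT := by
  intro α β I J A K b m hK hb hI hA hx
  obtain ⟨PD, hPD⟩ : ∃ PD : Finset β → Prop,
    ∀ B, PD B ↔ ∀ g ∈ B, ∀ h ∈ B, g ≠ h → Disjoint (A g) (A h) := ⟨_, fun _ => Iff.rfl⟩
  set Bs := (J.powersetCard m).filter PD with hBs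
  set S : Finset β → Finset (Finset α) := fun B =>
    I.powerset.filter fun C => ∀ g ∈ B, (A g ∩ C).card ≤ 1 with hS
  have hsub : (I.powerset.filter fun C =>
      m * K * b ≤ (J.filter fun g => (A g ∩ C).card ≤ 1).card) ⊆ Bs.biUnion S := by
    intro C hC
    rw [Finset.mem_filter] at hC
    obtain ⟨B, hB, hBm, hBd⟩ := h1 α β (J.filter fun g => (A g ∩ C).card ≤ 1) A K b m hK hb
      (fun g hg => hA g (Finset.mem_filter.1 hg).1)
      (fun x => (Finset.card_le_card (Finset.filter_subset_filter _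
        (Finset.filter_subset _ _))).trans (hx x)) hC.2
    rw [Finset.mem_biUnion]
    refine ⟨B, ?_, ?_⟩
    · rw [hBs, Finset.mem_filter, Finset.mem_powersetCard]
      exact ⟨⟨hB.trans (Finset.filter_subset _ _), hBm⟩, (hPD B).2 hBd⟩
    · rw [hS, Finset.mem_filter]
      exact ⟨hC.1, fun g hg => (Finset.mem_filter.1 (hB hg)).2⟩
  have hcard : Bs.card ≤ J.card ^ m := by
    calc Bs.card ≤ (J.powersetCard m).card := Finset.card_filter_le _ _
      _ = J.card.choose m := Finset.card_powersetCard _ _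
      _ ≤ J.card ^ m := Nat.choose_le_pow _ _
  calc _ ≤ (Bs.biUnion S).card * 2 ^ (m * K) := Nat.mul_le_mul_right _ (Finset.card_le_card hsub)
    _ ≤ (∑ B ∈ Bs, (S B).card) * 2 ^ (m * K) := Nat.mul_le_mul_right _ Finset.card_biUnion_le
    _ = ∑ B ∈ Bs, (S B).card * 2 ^ (m * K) := Finset.sum_mul _ _ _
    _ ≤ ∑ B ∈ Bs, (K + 1) ^ m * 2 ^ I.card := by
        refine Finset.sum_le_sum fun B hB => ?_
        rw [hBs, Finset.mem_filter, Finset.mem_powersetCard] at hB
        have h3 := h2 α β I B A K (fun g hg => hI g (hB.1.1 hg)) (fun g hg => hA g (hB.1.1 hg))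
          ((hPD B).1 hB.2)
        rw [hB.1.2] at h3
        exact h3
    _ = Bs.card * ((K + 1) ^ m * 2 ^ I.card) := by rw [Finset.sum_const, smul_eq_mul]
    _ ≤ J.card ^ m * ((K + 1) ^ m * 2 ^ I.card) := Nat.mul_le_mul_right _ hcard
    _ = _ := by ring

end Pool.Agent.E8helper25.MC
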